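import Mathlib
import Pool.Agent.J4H79.PT.Pt

/-!
# The algebra of motivic periods in coordinates has no zero divisors
-/

set_option autoImplicit false

open Finset

namespace Pool.Agent.J4H79.ZO

open Pool.Agent.J4H79.PT

/-! ## Leading words of shuffles -/

lemma shuffles_ne_nil {ι : Type} (u v : List ι) : shuffles u v ≠ [] := by
  induction hn : u.length + v.length using Nat.strong_induction_on generalizing u v with
  | _ n ih =>
    cases u with
    | nil => simp [shuffles]
    | cons x u =>
      cases v with
      | nil => simp [shuffles]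
      | cons y v =>
        rw [shuffles]
        intro h
        rw [List.append_eq_nil_iff, List.map_eq_nil_iff] at h
        exact ih (u.length + (y :: v).length) (by simp at hn ⊢; omega) _ _ rfl h.1

lemma mem_shuffles_comm {ι : Type} {u v s : List ι} (h : s ∈ shuffles u v) : s ∈ shuffles v u := by
  induction hn : u.length + v.length using Nat.strong_induction_on generalizing u v s with
  | _ n ih =>
    cases u with
    | nil =>
      cases v with
      | nil => exact h
      | cons y v => simpa [shuffles] using h
    | cons x u =>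
      cases v with
      | nil => simpa [shuffles] using h
      | cons y v =>
        rw [shuffles, List.mem_append, List.mem_map, List.mem_map] at h ⊢
        rcases h with ⟨w, hw, rfl⟩ | ⟨w, hw, rfl⟩
        · right
          exact ⟨w, ih (u.length + (y :: v).length) (by simp at hn ⊢; omega) hw rfl, rfl⟩
        · left
          exact ⟨w, ih ((x :: u).length + v.length) (by simp at hn ⊢; omega) hw rfl, rfl⟩

lemma shuffles_mono {u u' v s : List ℕ} (hl : u.length = u'.length) (hu : u < u')
    (h : s ∈ shuffles u v) : ∃ s' ∈ shuffles u' v, s < s' := by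
  induction hn : u.length + v.length using Nat.strong_induction_on generalizing u u' v s with
  | _ n ih =>
    cases u with
    | nil =>
      cases u' with
      | nil => exact absurd hu (lt_irrefl _)
      | cons x' u' => simp at hl
    | cons x u =>
      cases u' with
      | nil => simp at hl
      | cons x' u' =>
        have hl' : u.length = u'.length := by simpa using hl
        cases v with
        | nil =>
          have h1 : s = x :: u := by simpa [shuffles] using h
          exact ⟨x' :: u', by simp [shuffles], by rw [h1]; exact hu⟩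
        | cons y v =>
          rw [shuffles, List.mem_append, List.mem_map, List.mem_map] at h
          rcases h with ⟨w, hw, rfl⟩ | ⟨w, hw, rfl⟩
          · rcases List.cons_lt_cons_iff.1 hu with h1 | ⟨h1, h2⟩
            · obtain ⟨s2, hs2⟩ := List.exists_mem_of_ne_nil _ (shuffles_ne_nil u' (y :: v))
              refine ⟨x' :: s2, ?_, List.cons_lt_cons_iff.2 (Or.inl h1)⟩
              rw [shuffles, List.mem_append, List.mem_map]
              exact Or.inl ⟨s2, hs2, rfl⟩
            · obtain ⟨s2, hs2, hs3⟩ := ih (u.length + (y :: v).length)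
                (by simp at hn ⊢; omega) hl' h2 hw rfl
              refine ⟨x' :: s2, ?_, List.cons_lt_cons_iff.2 (Or.inr ⟨h1, hs3⟩)⟩
              rw [shuffles, List.mem_append, List.mem_map]
              exact Or.inl ⟨s2, hs2, rfl⟩
          · obtain ⟨s2, hs2, hs3⟩ := ih ((x :: u).length + v.length)
              (by simp at hn ⊢; omega) hl hu hw rfl
            refine ⟨y :: s2, ?_, List.cons_lt_cons_iff.2 (Or.inr ⟨rfl, hs3⟩)⟩
            rw [shuffles, List.mem_append, List.mem_map, List.mem_map]
            exact Or.inr ⟨s2, hs2, rfl⟩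

/-- a largest shuffle -/
lemma exists_top (u v : List ℕ) : ∃ s ∈ shuffles u v, ∀ s' ∈ shuffles u v, s' ≤ s := by
  have hne : (shuffles u v).toFinset.Nonempty := by
    obtain ⟨s, hs⟩ := List.exists_mem_of_ne_nil _ (shuffles_ne_nil u v)
    exact ⟨s, by simpa using hs⟩
  obtain ⟨s, hs, hm⟩ := Finset.exists_max_image _ id hne
  exact ⟨s, by simpa using hs, fun s' hs' => hm s' (by simpa using hs')⟩

/-! ## The algebra -/

/-- the indices of the basis: the power of `t` and the word -/
abbrev Ix : Type := ℕ × List ℕ

/-- the order of the leading terms -/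
def Lt (x y : Ix) : Prop :=
  x.2.length < y.2.length ∨ (x.2.length = y.2.length ∧ (x.2 < y.2 ∨ (x.2 = y.2 ∧ x.1 < y.1)))

lemma exists_lead (c : Ix →₀ ℚ) (hc : c ≠ 0) :
    ∃ x ∈ c.support, ∀ y ∈ c.support, y ≠ x → Lt y x := by
  have hne : c.support.Nonempty := Finsupp.support_nonempty_iff.2 hc
  obtain ⟨x1, hx1, hm1⟩ := Finset.exists_max_image c.support (fun x => x.2.length) hne
  have hne2 : (c.support.filter (fun x => x.2.length = x1.2.length)).Nonempty :=
    ⟨x1, by rw [mem_filter]; exact ⟨hx1, rfl⟩⟩
  obtain ⟨x2, hx2, hm2⟩ := Finset.exists_max_image _ (fun x => x.2) hne2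
  have hne3 : (c.support.filter (fun x => x.2 = x2.2)).Nonempty := by
    refine ⟨x2, ?_⟩
    rw [mem_filter] at hx2 ⊢
    exact ⟨hx2.1, rfl⟩
  obtain ⟨x3, hx3, hm3⟩ := Finset.exists_max_image _ (fun x => x.1) hne3
  rw [mem_filter] at hx2 hx3
  refine ⟨x3, hx3.1, fun y hy hne => ?_⟩
  have h3l : x3.2.length = x1.2.length := by rw [hx3.2, hx2.2]
  rcases lt_or_eq_of_le (hm1 y hy) with h | h
  · left; rw [h3l]; exact h
  · right
    refine ⟨by rw [h3l]; exact h, ?_⟩
    rcases lt_or_eq_of_le (hm2 y (mem_filter.2 ⟨hy, h⟩)) with h2 | h2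
    · left; rw [hx3.2]; exact h2
    · right
      refine ⟨by rw [hx3.2]; exact h2, ?_⟩
      rcases lt_or_eq_of_le (hm3 y (mem_filter.2 ⟨hy, h2⟩)) with h4 | h4
      · exact h4
      · exfalso
        apply hne
        exact Prod.ext h4 (by rw [hx3.2]; exact h2)

/-- structure constants -/
def sc (x y z : Ix) : ℕ := if x.1 + y.1 = z.1 then (shuffles x.2 y.2).count z.2 else 0

/-- the product with a basis element -/
noncomputable def mb (x y : Ix) : Ix →₀ ℚ :=
  ((shuffles x.2 y.2).map fun s => Finsupp.single (x.1 + y.1, s) (1 : ℚ)).sum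

lemma mb_apply (x y z : Ix) : mb x y z = sc x y z := by
  have h : ∀ (l : List (List ℕ)) (n : ℕ), ((l.map fun s => Finsupp.single ((n, s) : Ix) (1 : ℚ)).sum) z =
      if n = z.1 then (l.count z.2 : ℚ) else 0 := by
    intro l n
    induction l with
    | nil => simp
    | cons a l ih =>
      rw [List.map_cons, List.sum_cons, Finsupp.add_apply, ih, List.count_cons]
      by_cases hn : n = z.1
      · by_cases ha : a = z.2
        · have : ((n, a) : Ix) = z := Prod.ext hn ha
          rw [this, Finsupp.single_eq_same]
          simp [hn, ha, add_comm]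
        · have : ((n, a) : Ix) ≠ z := fun h => ha (congrArg Prod.snd h)
          rw [Finsupp.single_eq_of_ne (by simpa [eq_comm] using this)]
          simp [hn, ha]
      · have : ((n, a) : Ix) ≠ z := fun h => hn (congrArg Prod.fst h)
        rw [Finsupp.single_eq_of_ne (by simpa [eq_comm] using this)]
        simp [hn]
  rw [mb, h, sc]
  split_ifs <;> simp

/-- multiplication by `c` -/
noncomputable def mulL (c : Ix →₀ ℚ) : (Ix →₀ ℚ) →ₗ[ℚ] (Ix →₀ ℚ) :=
  Finsupp.lsum ℚ fun y => (LinearMap.toSpanSingleton ℚ (Ix →₀ ℚ) (c.sum fun x a => a • mb x y))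

lemma mulL_single (c : Ix →₀ ℚ) (y : Ix) (b : ℚ) :
    mulL c (Finsupp.single y b) = b • c.sum fun x a => a • mb x y := by
  simp [mulL]

lemma mulL_apply (c q : Ix →₀ ℚ) (z : Ix) :
    mulL c q z = ∑ y ∈ q.support, ∑ x ∈ c.support, q y * (c x * (sc x y z : ℚ)) := by
  rw [mulL, Finsupp.lsum_apply, Finsupp.sum, Finsupp.finsetSum_apply]
  refine Finset.sum_congr rfl fun y _ => ?_
  rw [LinearMap.toSpanSingleton_apply, Finsupp.smul_apply, Finsupp.sum, Finsupp.finsetSum_apply,
    smul_eq_mul, Finset.mul_sum]
  refine Finset.sum_congr rfl fun x _ => ?_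
  rw [Finsupp.smul_apply, mb_apply, smul_eq_mul]

lemma sc_lt {x x0 y y0 z : Ix} {s0 : List ℕ}
    (htop : ∀ s' ∈ shuffles x0.2 y0.2, s' ≤ s0) (hs0 : s0 ∈ shuffles x0.2 y0.2)
    (hz : z = (x0.1 + y0.1, s0))
    (hx : x = x0 ∨ Lt x x0) (hy : y = y0 ∨ Lt y y0) (hne : ¬ (x = x0 ∧ y = y0)) :
    sc x y z = 0 := by
  by_contra hsc
  rw [sc] at hsc
  split_ifs at hsc with h1
  · have hmem : z.2 ∈ shuffles x.2 y.2 := List.count_pos_iff.1 (Nat.pos_of_ne_zero hsc)
    rw [hz] at h1 hmem
    simp only at h1 hmem
    have hlen1 := length_of_mem_shuffles hmem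
    have hlen2 := length_of_mem_shuffles hs0
    have hxl : x.2.length ≤ x0.2.length := by
      rcases hx with rfl | h | h
      · exact le_rfl
      · exact h.le
      · exact h.1.le
    have hyl : y.2.length ≤ y0.2.length := by
      rcases hy with rfl | h | h
      · exact le_rfl
      · exact h.le
      · exact h.1.le
    have hxe : x.2.length = x0.2.length := by omega
    have hye : y.2.length = y0.2.length := by omega
    have hx2 : x.2 < x0.2 ∨ x.2 = x0.2 := by
      rcases hx with rfl | h | h
      · right; rfl
      · omega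
      · rcases h.2 with h | h
        · left; exact h
        · right; exact h.1
    have hy2 : y.2 < y0.2 ∨ y.2 = y0.2 := by
      rcases hy with rfl | h | h
      · right; rfl
      · omega
      · rcases h.2 with h | h
        · left; exact h
        · right; exact h.1
    rcases hx2 with hx2 | hx2
    · obtain ⟨s1, hs1, hs1'⟩ := shuffles_mono hxe hx2 hmem
      rcases hy2 with hy2 | hy2
      · obtain ⟨s2, hs2, hs2'⟩ := shuffles_mono hye hy2 (mem_shuffles_comm hs1)
        exact absurd (htop s2 (mem_shuffles_comm hs2)) (not_le.2 (hs1'.trans hs2'))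
      · rw [hy2] at hs1
        exact absurd (htop s1 hs1) (not_le.2 hs1')
    · rcases hy2 with hy2 | hy2
      · obtain ⟨s2, hs2, hs2'⟩ := shuffles_mono hye hy2 (mem_shuffles_comm hmem)
        have := mem_shuffles_comm hs2
        rw [hx2] at this
        exact absurd (htop s2 this) (not_le.2 hs2')
      · have hx1 : x.1 ≤ x0.1 := by
          rcases hx with rfl | h | h
          · exact le_rfl
          · omega
          · rcases h.2 with h | h
            · rw [hx2] at h; exact absurd h (lt_irrefl _)
            · exact h.2.le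
        have hy1 : y.1 ≤ y0.1 := by
          rcases hy with rfl | h | h
          · exact le_rfl
          · omega
          · rcases h.2 with h | h
            · rw [hy2] at h; exact absurd h (lt_irrefl _)
            · exact h.2.le
        exact hne ⟨Prod.ext (by omega) hx2, Prod.ext (by omega) hy2⟩
  · exact hsc rfl

/-- no zero divisors -/
theorem mulL_injective (c : Ix →₀ ℚ) (hc : c ≠ 0) : Function.Injective (mulL c) := by
  rw [injective_iff_map_eq_zero]
  intro q hq
  by_contra hq0
  obtain ⟨x0, hx0, hxm⟩ := exists_lead c hc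
  obtain ⟨y0, hy0, hym⟩ := exists_lead q hq0
  obtain ⟨s0, hs0, htop⟩ := exists_top x0.2 y0.2
  have h1 := mulL_apply c q (x0.1 + y0.1, s0)
  rw [hq, Finsupp.zero_apply, Finset.sum_eq_single y0, Finset.sum_eq_single x0] at h1
  · have h2 : (sc x0 y0 (x0.1 + y0.1, s0) : ℚ) ≠ 0 := by
      rw [sc, if_pos rfl]
      have := List.count_pos_iff.2 hs0
      exact_mod_cast this.ne'
    exact mul_ne_zero (Finsupp.mem_support_iff.1 hy0)
      (mul_ne_zero (Finsupp.mem_support_iff.1 hx0) h2) h1.symm
  · intro x hx hne
    rw [sc_lt htop hs0 rfl (Or.inr (hxm x hx hne)) (Or.inl rfl) (fun h => hne h.1)]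
    simp
  · intro h; exact absurd hx0 h
  · intro y hy hne
    apply Finset.sum_eq_zero
    intro x hx
    rw [sc_lt htop hs0 rfl (by
      by_cases h : x = x0
      · exact Or.inl h
      · exact Or.inr (hxm x hx h)) (Or.inr (hym y hy hne)) (fun h => hne h.2)]
    simp
  · intro h; exact absurd hy0 h

end Pool.Agent.J4H79.ZO
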