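import Mathlib
import Pool.Agent.J4H79.PT.Fin
import Pool.Agent.J4H79.ZO.Alg

/-!
# The zero-one law for the period map
-/

set_option autoImplicit false

open Finset

namespace Pool.Agent.J4H79.ZO

open Pool.Agent.J4H79.PT

/-- the weight of a basis element -/
def W (x : Ix) : ℕ := x.1 + wtw wt3 x.2

/-- the basis elements of weight at most `N` with letters in `Λ` -/
def idx (Λ : Set ℕ) (N : ℕ) : Set Ix := {x | W x ≤ N ∧ ∀ k ∈ x.2, k ∈ Λ}

/-- the period of a basis element -/
noncomputable def val (comp : Pt wt3) (x : Ix) : ℂ := comp.t ^ x.1 * comp.ph x.2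

/-- the number of basis elements of weight at most `N` with letters in `Λ` -/
noncomputable def E (Λ : Set ℕ) (N : ℕ) : ℕ := (idx Λ N).ncard

/-- the dimension of the space of their periods -/
noncomputable def D (comp : Pt wt3) (Λ : Set ℕ) (N : ℕ) : ℕ :=
  Module.finrank ℚ (Submodule.span ℚ (val comp '' idx Λ N))

/-- the relations between them with integer coefficients of absolute value at most `B` -/
def Rel (comp : Pt wt3) (Λ : Set ℕ) (N B : ℕ) : Set (Ix →₀ ℚ) :=
  {c | (∀ x ∈ c.support, x ∈ idx Λ N) ∧ (∀ x, ∃ z : ℤ, c x = z ∧ |z| ≤ B) ∧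
    (c.sum fun x q => (q : ℂ) * val comp x) = 0}

/-- the number of independent ones -/
noncomputable def R (comp : Pt wt3) (Λ : Set ℕ) (N B : ℕ) : ℕ :=
  Module.finrank ℚ (Submodule.span ℚ (Rel comp Λ N B))

/-! ## Counting -/

lemma fin_words : ∀ N : ℕ, {w : List ℕ | wtw wt3 w ≤ N}.Finite := by
  intro N
  induction N with
  | zero =>
    apply (Set.finite_singleton ([] : List ℕ)).subset
    intro w hw
    cases w with
    | nil => exact rfl
    | cons k w =>
      simp only [Set.mem_ofPred_eq, wtw_cons, wt3] at hw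
      omega
  | succ N ih =>
    apply ((Set.finite_singleton ([] : List ℕ)).union
      ((Finset.range (N + 1)).finite_toSet.biUnion (fun k _ => ih.image (fun w => k :: w)))).subset
    intro w hw
    cases w with
    | nil => left; exact rfl
    | cons k w =>
      right
      simp only [Set.mem_ofPred_eq, wtw_cons, wt3] at hw
      rw [Set.mem_iUnion₂]
      refine ⟨k, by simp; omega, ⟨w, ?_, rfl⟩⟩
      simp only [Set.mem_ofPred_eq]
      omega

lemma fin_idx (Λ : Set ℕ) (N : ℕ) : (idx Λ N).Finite := by
  apply ((Finset.range (N + 1)).finite_toSet.prod (fin_words N)).subset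
  intro x hx
  simp only [idx, W, Set.mem_ofPred_eq] at hx
  refine ⟨by simp; omega, ?_⟩
  simp only [Set.mem_ofPred_eq]
  omega

lemma E_pos (Λ : Set ℕ) (N : ℕ) : 0 < E Λ N := by
  rw [E, Set.ncard_pos (fin_idx Λ N)]
  exact ⟨(0, []), by simp [idx, W]⟩

lemma E_succ (Λ : Set ℕ) (N : ℕ) : E Λ (N + 1) ≤ 3 * E Λ N := by
  set A : Set Ix := {x | x ∈ idx Λ (N + 1) ∧ 1 ≤ x.1} with hA
  set B : Set Ix := {x | x ∈ idx Λ (N + 1) ∧ x.1 = 0 ∧ x.2 ≠ []} with hB
  have hAf : A.Finite := (fin_idx Λ (N + 1)).subset fun x hx => hx.1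
  have hBf : B.Finite := (fin_idx Λ (N + 1)).subset fun x hx => hx.1
  have h1 : idx Λ (N + 1) ⊆ idx Λ N ∪ (A ∪ B) := by
    intro x hx
    by_cases hx1 : 1 ≤ x.1
    · right; left; exact ⟨hx, hx1⟩
    · by_cases hx2 : x.2 = []
      · left
        refine ⟨?_, hx.2⟩
        rw [W, hx2, wtw_nil]
        omega
      · right; right; exact ⟨hx, by omega, hx2⟩
  have h2 : A.ncard ≤ (idx Λ N).ncard := by
    apply Set.ncard_le_ncard_of_injOn (fun x : Ix => ((x.1 - 1, x.2) : Ix)) _ _ (fin_idx Λ N)
    · rintro x ⟨⟨hx1, hx2⟩, hx3⟩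
      refine ⟨?_, hx2⟩
      simp only [W] at hx1 ⊢
      omega
    · rintro x ⟨_, hx3⟩ y ⟨_, hy3⟩ hxy
      simp only [Prod.mk.injEq] at hxy
      exact Prod.ext (by omega) hxy.2
  have h3 : B.ncard ≤ (idx Λ N).ncard := by
    apply Set.ncard_le_ncard_of_injOn
      (fun x : Ix => ((2 * x.2.headD 0 + 2, x.2.tail) : Ix)) _ _ (fin_idx Λ N)
    · rintro ⟨a, w⟩ ⟨⟨hx1, hx2⟩, hx3, hx4⟩
      rcases w with _ | ⟨k, w⟩
      · exact absurd rfl hx4
      · refine ⟨?_, fun l hl => hx2 l (List.mem_cons_of_mem _ hl)⟩
        simp only [W, wtw_cons, wt3] at hx1 hx3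
        simp only [W, List.headD_cons, List.tail_cons]
        omega
    · rintro ⟨a, w⟩ ⟨_, hx3, hx4⟩ ⟨b, v⟩ ⟨_, hy3, hy4⟩ hxy
      rcases w with _ | ⟨k, w⟩
      · exact absurd rfl hx4
      · rcases v with _ | ⟨l, v⟩
        · exact absurd rfl hy4
        · simp only [List.headD_cons, List.tail_cons, Prod.mk.injEq] at hxy hx3 hy3
          rw [hx3, hy3, hxy.2, show k = l by omega]
  have h4 : (A ∪ B).Finite := hAf.union hBf
  calc E Λ (N + 1) ≤ (idx Λ N ∪ (A ∪ B)).ncard :=
        Set.ncard_le_ncard h1 ((fin_idx Λ N).union h4)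
    _ ≤ (idx Λ N).ncard + (A ∪ B).ncard := Set.ncard_union_le _ _
    _ ≤ (idx Λ N).ncard + (A.ncard + B.ncard) := Nat.add_le_add_left (Set.ncard_union_le _ _) _
    _ ≤ 3 * E Λ N := by rw [E]; omega

lemma E_le (Λ : Set ℕ) (M : ℕ) : ∀ N, M ≤ N → E Λ N ≤ 3 ^ M * E Λ (N - M) := by
  induction M with
  | zero => intro N _; simp
  | succ M ih =>
    intro N hN
    have h1 := ih N (by omega)
    have h2 := E_succ Λ (N - (M + 1))
    rw [show N - (M + 1) + 1 = N - M by omega] at h2
    calc E Λ N ≤ 3 ^ M * E Λ (N - M) := h1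
      _ ≤ 3 ^ M * (3 * E Λ (N - (M + 1))) := Nat.mul_le_mul_left _ h2
      _ = 3 ^ (M + 1) * E Λ (N - (M + 1)) := by ring

lemma mem_of_mem_shuffles {u v s : List ℕ} (h : s ∈ shuffles u v) {k : ℕ} (hk : k ∈ s) :
    k ∈ u ∨ k ∈ v := by
  induction hn : u.length + v.length using Nat.strong_induction_on generalizing u v s with
  | _ n ih =>
    cases u with
    | nil =>
      have h1 : s = v := by simpa [shuffles] using h
      right; rw [← h1]; exact hk
    | cons x u =>
      cases v with
      | nil =>
        have h1 : s = x :: u := by simpa [shuffles] using h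
        left; rw [← h1]; exact hk
      | cons y v =>
        rw [shuffles, List.mem_append, List.mem_map, List.mem_map] at h
        rcases h with ⟨w, hw, rfl⟩ | ⟨w, hw, rfl⟩
        · rcases List.mem_cons.1 hk with h2 | h2
          · left; rw [h2]; exact List.mem_cons_self
          · rcases ih (u.length + (y :: v).length) (by simp at hn ⊢; omega) hw h2 rfl with h3 | h3
            · left; exact List.mem_cons_of_mem _ h3
            · right; exact h3
        · rcases List.mem_cons.1 hk with h2 | h2
          · right; rw [h2]; exact List.mem_cons_self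
          · rcases ih ((x :: u).length + v.length) (by simp at hn ⊢; omega) hw h2 rfl with h3 | h3
            · left; exact h3
            · right; exact List.mem_cons_of_mem _ h3

/-! ## Heights -/

lemma count_shuffles_le (s : List ℕ) : ∀ (v : List ℕ) (U : Finset (List ℕ)),
    ∑ u ∈ U, (shuffles u v).count s ≤ s.length.choose v.length := by
  induction s with
  | nil =>
    intro v U
    rcases v with _ | ⟨y, v⟩
    · have h1 : ∀ u ∈ U, (shuffles u ([] : List ℕ)).count ([] : List ℕ) ≤
          if u = [] then 1 else 0 := by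
        intro u _
        rcases u with _ | ⟨x, u⟩ <;> simp [shuffles]
      refine (Finset.sum_le_sum h1).trans ?_
      rw [Finset.sum_ite_eq' U [] (fun _ => 1)]
      split_ifs <;> simp
    · have h1 : ∀ u ∈ U, (shuffles u (y :: v)).count ([] : List ℕ) = 0 := by
        intro u _
        apply List.count_eq_zero_of_not_mem
        intro h
        have := length_of_mem_shuffles h
        simp only [List.length_nil, List.length_cons] at this
        omega
      rw [Finset.sum_eq_zero h1]
      exact Nat.zero_le _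
  | cons a s ih =>
    intro v U
    rcases v with _ | ⟨b, v⟩
    · have h1 : ∀ u ∈ U, (shuffles u ([] : List ℕ)).count (a :: s) ≤
          if u = a :: s then 1 else 0 := by
        intro u _
        have : shuffles u ([] : List ℕ) = [u] := by cases u <;> simp [shuffles]
        rw [this, List.count_singleton]
        simp
      refine (Finset.sum_le_sum h1).trans ?_
      rw [Finset.sum_ite_eq' U (a :: s) (fun _ => 1)]
      split_ifs <;> simp
    · have hmap : ∀ (x : ℕ) (l : List (List ℕ)), (l.map (x :: ·)).count (a :: s) =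
          if x = a then l.count s else 0 := by
        intro x l
        by_cases hx : x = a
        · rw [if_pos hx, hx]
          exact List.count_map_of_injective _ _ (fun p q h => by simpa using h) _
        · rw [if_neg hx]
          apply List.count_eq_zero_of_not_mem
          rw [List.mem_map]
          rintro ⟨w, _, hw⟩
          exact hx (by simpa using congrArg List.head? hw)
      have h1 : ∀ u ∈ U, (shuffles u (b :: v)).count (a :: s) ≤
          (if u.head? = some a then (shuffles u.tail (b :: v)).count s else 0) +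
            (shuffles u v).count s := by
        intro u _
        rcases u with _ | ⟨x, u⟩
        · have e1 : shuffles ([] : List ℕ) (b :: v) = [b :: v] := by simp [shuffles]
          have e2 : shuffles ([] : List ℕ) v = [v] := by cases v <;> simp [shuffles]
          rw [e1, e2, List.count_singleton, List.count_singleton]
          by_cases h : b = a <;> by_cases h2 : v = s <;> simp [h, h2]
        · rw [shuffles, List.count_append, hmap, hmap]
          apply Nat.add_le_add
          · by_cases hx : x = a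
            · simp [hx]
            · simp [hx]
          · split_ifs
            · exact le_rfl
            · exact Nat.zero_le _
      refine (Finset.sum_le_sum h1).trans ?_
      rw [Finset.sum_add_distrib]
      have h2 : ∑ u ∈ U, (if u.head? = some a then (shuffles u.tail (b :: v)).count s else 0) ≤
          s.length.choose (v.length + 1) := by
        rw [← Finset.sum_filter]
        have hinj : Set.InjOn List.tail
            ((U.filter (fun u => u.head? = some a) : Finset (List ℕ)) : Set (List ℕ)) := by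
          intro u hu u' hu' h
          simp only [Finset.coe_filter, Set.mem_ofPred_eq] at hu hu'
          rcases u with _ | ⟨x, u⟩
          · simp at hu
          · rcases u' with _ | ⟨x', u'⟩
            · simp at hu'
            · simp only [List.head?_cons, Option.some.injEq, List.tail_cons] at hu hu' h
              rw [hu.2, hu'.2, h]
        have h3 := Finset.sum_image (f := fun u => (shuffles u (b :: v)).count s) hinj
        rw [← h3]
        exact ih (b :: v) _
      have h4 := ih v U
      rw [List.length_cons, List.length_cons, Nat.choose_succ_succ, Nat.succ_eq_add_one]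
      omega

lemma wtw_ge_length (w : List ℕ) : 3 * w.length ≤ wtw wt3 w := by
  induction w with
  | nil => simp
  | cons k w ih => simp only [List.length_cons, wtw_cons, wt3]; omega

/-- the number of the ways in which a word is a shuffle of a short word of a set and `v` -/
lemma count_le (M N : ℕ) (hMN : M ≤ N) (s v : List ℕ) (hs : s.length ≤ N) (U : Finset (List ℕ))
    (hU : ∀ u ∈ U, 3 * u.length ≤ M) :
    ∑ u ∈ U, (shuffles u v).count s ≤ N ^ (M / 3) := by
  by_cases h0 : ∑ u ∈ U, (shuffles u v).count s = 0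
  · rw [h0]; exact Nat.zero_le _
  · obtain ⟨u, hu, hu2⟩ := Finset.exists_ne_zero_of_sum_ne_zero h0
    have h1 := length_of_mem_shuffles (List.count_pos_iff.1 (Nat.pos_of_ne_zero hu2))
    have h2 := hU u hu
    refine (count_shuffles_le s v U).trans ?_
    rw [h1, ← Nat.choose_symm_add]
    rcases Nat.eq_zero_or_pos N with hN | hN
    · have hu0 : u.length = 0 := by omega
      have hM0 : M / 3 = 0 := by omega
      rw [hu0, hM0]
      simp
    · calc (u.length + v.length).choose u.length ≤ (u.length + v.length) ^ u.length :=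
            Nat.choose_le_pow _ _
        _ ≤ N ^ u.length := Nat.pow_le_pow_left (by omega) _
        _ ≤ N ^ (M / 3) := Nat.pow_le_pow_right hN (by omega)

/-! ## The evaluation -/

/-- the period map in coordinates -/
noncomputable def ev (comp : Pt wt3) : (Ix →₀ ℚ) →ₗ[ℚ] ℂ := Finsupp.linearCombination ℚ (val comp)

lemma ev_eq (comp : Pt wt3) (c : Ix →₀ ℚ) :
    ev comp c = c.sum fun x q => (q : ℂ) * val comp x := by
  rw [ev, Finsupp.linearCombination_apply]
  apply Finsupp.sum_congr
  intro x _
  rw [Algebra.smul_def]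
  rfl

lemma ev_mb (comp : Pt wt3) (x y : Ix) : ev comp (mb x y) = val comp x * val comp y := by
  have h : ∀ (l : List (List ℕ)) (n : ℕ),
      ev comp ((l.map fun s => Finsupp.single ((n, s) : Ix) (1 : ℚ)).sum) =
        comp.t ^ n * (l.map comp.ph).sum := by
    intro l n
    induction l with
    | nil => simp
    | cons a l ih =>
      rw [List.map_cons, List.sum_cons, map_add, ih, List.map_cons, List.sum_cons, mul_add, ev,
        Finsupp.linearCombination_single, one_smul]
      rfl
  rw [mb, h, pow_add]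
  have h2 := comp.gl.2 x.2 y.2
  rw [dl] at h2
  rw [← h2, val, val]
  ring

lemma ev_mul (comp : Pt wt3) (c q : Ix →₀ ℚ) : ev comp (mulL c q) = ev comp c * ev comp q := by
  induction q using Finsupp.induction_linear with
  | zero => simp
  | add p q hp hq => rw [map_add, map_add, map_add, hp, hq, mul_add]
  | single y b =>
    rw [mulL_single, map_smul, Finsupp.sum, map_sum]
    simp only [map_smul, ev_mb]
    rw [ev, Finsupp.linearCombination_single, Finsupp.linearCombination_apply, Finsupp.sum,
      Finset.sum_mul, Finset.smul_sum]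
    refine Finset.sum_congr rfl fun x _ => ?_
    simp only [Algebra.smul_def]
    ring

/-- the elements of weight at most `N` with letters in `Λ` -/
noncomputable def V (Λ : Set ℕ) (N : ℕ) : Submodule ℚ (Ix →₀ ℚ) :=
  Finsupp.supported ℚ ℚ (idx Λ N)

lemma mem_V (Λ : Set ℕ) (N : ℕ) (c : Ix →₀ ℚ) : c ∈ V Λ N ↔ ∀ x ∈ c.support, x ∈ idx Λ N := by
  rw [V, Finsupp.mem_supported]
  rfl

instance (Λ : Set ℕ) (N : ℕ) : Finite (idx Λ N) := (fin_idx Λ N).to_subtype

instance fdV (Λ : Set ℕ) (N : ℕ) : FiniteDimensional ℚ (V Λ N) := by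
  have := Fintype.ofFinite (idx Λ N)
  exact Module.Finite.equiv (Finsupp.supportedEquivFinsupp (M := ℚ) (R := ℚ) (idx Λ N)).symm

lemma finrank_V (Λ : Set ℕ) (N : ℕ) : Module.finrank ℚ (V Λ N) = E Λ N := by
  have := Fintype.ofFinite (idx Λ N)
  change Module.finrank ℚ (Finsupp.supported ℚ ℚ (idx Λ N)) = E Λ N
  rw [LinearEquiv.finrank_eq (Finsupp.supportedEquivFinsupp (M := ℚ) (R := ℚ) (idx Λ N)),
    Module.finrank_finsupp_self, E, Set.ncard_eq_toFinset_card' (idx Λ N), Set.toFinset_card]

lemma sc_W {x y z : Ix} (h : sc x y z ≠ 0) : W z = W x + W y ∧ z.2 ∈ shuffles x.2 y.2 := by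
  rw [sc] at h
  split_ifs at h with h1
  · have h2 := List.count_pos_iff.1 (Nat.pos_of_ne_zero h)
    have h3 := wtw_of_mem_shuffles wt3 h2
    refine ⟨?_, h2⟩
    rw [W, W, W, ← h1, h3]
    ring
  · exact absurd rfl h

lemma mulL_mem {Λ : Set ℕ} {M N : ℕ} (hMN : M ≤ N) {c q : Ix →₀ ℚ} (hc : c ∈ V Λ M)
    (hq : q ∈ V Λ (N - M)) : mulL c q ∈ V Λ N := by
  rw [mem_V] at hc hq ⊢
  intro z hz
  rw [Finsupp.mem_support_iff, mulL_apply] at hz
  obtain ⟨y, hy, hyz⟩ := Finset.exists_ne_zero_of_sum_ne_zero hz
  obtain ⟨x, hx, hxz⟩ := Finset.exists_ne_zero_of_sum_ne_zero hyz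
  have h1 : sc x y z ≠ 0 := by
    intro h
    rw [h] at hxz
    simp at hxz
  obtain ⟨h4, h5⟩ := sc_W h1
  have h2 := (hc x hx).1
  have h3 := (hq y hy).1
  refine ⟨by rw [h4]; omega, fun k hk => ?_⟩
  rcases mem_of_mem_shuffles h5 hk with h6 | h6
  · exact (hc x hx).2 k h6
  · exact (hq y hy).2 k h6

lemma mulL_rel (comp : Pt wt3) {Λ : Set ℕ} {M N H B : ℕ} (hMN : M ≤ N)
    (hB : H * N ^ (M / 3) ≤ B) {c : Ix →₀ ℚ}
    (hc : c ∈ Rel comp Λ M H) (y : Ix) (hy : y ∈ idx Λ (N - M)) :
    mulL c (Finsupp.single y 1) ∈ Rel comp Λ N B := by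
  obtain ⟨hc1, hc2, hc3⟩ := hc
  have hval : ∀ z, mulL c (Finsupp.single y 1) z = ∑ x ∈ c.support, c x * (sc x y z : ℚ) := by
    intro z
    rw [mulL_single, one_smul, Finsupp.sum, Finsupp.finsetSum_apply]
    refine Finset.sum_congr rfl fun x _ => ?_
    rw [Finsupp.smul_apply, mb_apply, smul_eq_mul]
  have hsup : ∀ z ∈ (mulL c (Finsupp.single y 1)).support, z ∈ idx Λ N := by
    rw [← mem_V]
    apply mulL_mem hMN ((mem_V Λ M c).2 hc1)
    rw [mem_V]
    intro x hx
    have := Finsupp.support_single_subset hx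
    rw [Finset.mem_singleton] at this
    rw [this]
    exact hy
  refine ⟨hsup, ?_, ?_⟩
  · intro z
    choose f hf1 hf2 using hc2
    refine ⟨∑ x ∈ c.support, f x * (sc x y z : ℤ), ?_, ?_⟩
    · rw [hval]
      push_cast
      refine Finset.sum_congr rfl fun x _ => ?_
      rw [hf1]
    · by_cases hz : z ∈ (mulL c (Finsupp.single y 1)).support
      · have hW := (hsup z hz).1
        have h1 : |∑ x ∈ c.support, f x * (sc x y z : ℤ)| ≤
            (H : ℤ) * ∑ x ∈ c.support, (sc x y z : ℤ) := by
          rw [Finset.mul_sum]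
          refine (Finset.abs_sum_le_sum_abs _ _).trans (Finset.sum_le_sum fun x _ => ?_)
          rw [abs_mul]
          have : |(sc x y z : ℤ)| = sc x y z := abs_of_nonneg (Int.natCast_nonneg _)
          rw [this]
          exact mul_le_mul_of_nonneg_right (hf2 x) (Int.natCast_nonneg _)
        have h2 : ∑ x ∈ c.support, sc x y z ≤ N ^ (M / 3) := by
          have h3 : ∑ x ∈ c.support, sc x y z ≤
              ∑ x ∈ c.support.filter (fun x => x.1 + y.1 = z.1), (shuffles x.2 y.2).count z.2 := by
            rw [Finset.sum_filter]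
            exact le_of_eq (Finset.sum_congr rfl fun x _ => rfl)
          have hinj : Set.InjOn Prod.snd
              ((c.support.filter (fun x => x.1 + y.1 = z.1) : Finset Ix) : Set Ix) := by
            intro u hu v hv h
            simp only [Finset.coe_filter, Set.mem_ofPred_eq] at hu hv
            exact Prod.ext (by omega) h
          have h4 := Finset.sum_image (f := fun u => (shuffles u y.2).count z.2) hinj
          have hlen : z.2.length ≤ N := by
            have := wtw_ge_length z.2
            rw [W] at hW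
            omega
          have h5 := count_le M N hMN z.2 y.2 hlen
            ((c.support.filter (fun x => x.1 + y.1 = z.1)).image Prod.snd) (by
              intro u hu
              rw [Finset.mem_image] at hu
              obtain ⟨x, hx, rfl⟩ := hu
              rw [Finset.mem_filter] at hx
              have h6 := (hc1 x hx.1).1
              have h7 := wtw_ge_length x.2
              rw [W] at h6
              omega)
          rw [h4] at h5
          exact h3.trans h5
        have h6 : (∑ x ∈ c.support, (sc x y z : ℤ)) ≤ (N : ℤ) ^ (M / 3) := by exact_mod_cast h2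
        have h7 : (H : ℤ) * (N : ℤ) ^ (M / 3) ≤ B := by exact_mod_cast hB
        exact h1.trans ((mul_le_mul_of_nonneg_left h6 (Int.natCast_nonneg _)).trans h7)
      · rw [Finsupp.notMem_support_iff, hval] at hz
        have h8 : ((∑ x ∈ c.support, f x * (sc x y z : ℤ) : ℤ) : ℚ) = 0 := by
          push_cast
          rw [← hz]
          refine Finset.sum_congr rfl fun x _ => ?_
          rw [hf1]
        have h9 : (∑ x ∈ c.support, f x * (sc x y z : ℤ) : ℤ) = 0 := by exact_mod_cast h8
        rw [h9]
        simp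
  · rw [← ev_eq, ev_mul]
    rw [← ev_eq] at hc3
    rw [hc3, zero_mul]

lemma Rel_le (comp : Pt wt3) (Λ : Set ℕ) (N B : ℕ) :
    Submodule.span ℚ (Rel comp Λ N B) ≤ V Λ N ⊓ LinearMap.ker (ev comp) := by
  rw [Submodule.span_le]
  intro c hc
  refine ⟨(mem_V Λ N c).2 hc.1, ?_⟩
  change ev comp c = 0
  rw [ev_eq]
  exact hc.2.2

instance fdK (comp : Pt wt3) (Λ : Set ℕ) (N : ℕ) :
    FiniteDimensional ℚ (V Λ N ⊓ LinearMap.ker (ev comp) : Submodule ℚ (Ix →₀ ℚ)) :=
  Submodule.finiteDimensional_of_le inf_le_left

instance fdR (comp : Pt wt3) (Λ : Set ℕ) (N B : ℕ) :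
    FiniteDimensional ℚ (Submodule.span ℚ (Rel comp Λ N B)) :=
  Submodule.finiteDimensional_of_le (Rel_le comp Λ N B)

/-- many relations -/
theorem R_ge (comp : Pt wt3) {Λ : Set ℕ} {M N H B : ℕ} (hMN : M ≤ N)
    (hB : H * N ^ (M / 3) ≤ B) {c : Ix →₀ ℚ}
    (hc : c ∈ Rel comp Λ M H) (hc0 : c ≠ 0) : E Λ (N - M) ≤ R comp Λ N B := by
  have h1 : (V Λ (N - M)).map (mulL c) ≤ Submodule.span ℚ (Rel comp Λ N B) := by
    rw [V, Finsupp.supported_eq_span_single, Submodule.map_span, Submodule.span_le]
    rintro _ ⟨_, ⟨y, hy, rfl⟩, rfl⟩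
    exact Submodule.subset_span (mulL_rel comp hMN hB hc y hy)
  have h2 : Module.finrank ℚ ((V Λ (N - M)).map (mulL c)) = E Λ (N - M) := by
    rw [← finrank_V]
    exact (LinearEquiv.finrank_eq (Submodule.equivMapOfInjective _ (mulL_injective c hc0) _)).symm
  rw [R, ← h2]
  exact Submodule.finrank_mono h1

/-- dimension and kernel -/
lemma D_add (comp : Pt wt3) (Λ : Set ℕ) (N : ℕ) :
    D comp Λ N +
      Module.finrank ℚ (V Λ N ⊓ LinearMap.ker (ev comp) : Submodule ℚ (Ix →₀ ℚ)) = E Λ N := by
  have h1 := LinearMap.finrank_range_add_finrank_ker ((ev comp).domRestrict (V Λ N))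
  rw [finrank_V] at h1
  have h2 : LinearMap.range ((ev comp).domRestrict (V Λ N)) =
      Submodule.span ℚ (val comp '' idx Λ N) := by
    rw [LinearMap.range_domRestrict, Finsupp.span_image_eq_map_linearCombination]
    rfl
  have h3 : Module.finrank ℚ (LinearMap.ker ((ev comp).domRestrict (V Λ N))) =
      Module.finrank ℚ (V Λ N ⊓ LinearMap.ker (ev comp) : Submodule ℚ (Ix →₀ ℚ)) := by
    have h4 : (LinearMap.ker ((ev comp).domRestrict (V Λ N))).map (V Λ N).subtype =
        V Λ N ⊓ LinearMap.ker (ev comp) := by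
      ext c
      constructor
      · rintro ⟨d, hd, rfl⟩
        exact ⟨d.2, hd⟩
      · rintro ⟨h5, h6⟩
        exact ⟨⟨c, h5⟩, h6, rfl⟩
    rw [← h4]
    exact LinearEquiv.finrank_eq (Submodule.equivMapOfInjective _ (V Λ N).injective_subtype _)
  rw [h2, h3] at h1
  exact h1

theorem D_le (comp : Pt wt3) {Λ : Set ℕ} {M N H : ℕ} (hMN : M ≤ N) {c : Ix →₀ ℚ}
    (hc : c ∈ Rel comp Λ M H) (hc0 : c ≠ 0) : D comp Λ N + E Λ (N - M) ≤ E Λ N := by
  have h1 := R_ge comp hMN le_rfl hc hc0
  have h2 : R comp Λ N (H * N ^ (M / 3)) ≤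
      Module.finrank ℚ (V Λ N ⊓ LinearMap.ker (ev comp) : Submodule ℚ (Ix →₀ ℚ)) :=
    Submodule.finrank_mono (Rel_le comp Λ N _)
  have h3 := D_add comp Λ N
  omega

end Pool.Agent.J4H79.ZO
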