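import Mathlib
import Pool.Agent.J4H79.ZO.Main

/-!
# The zero-one law: equivalences
-/

set_option autoImplicit false

open Finset Filter

namespace Pool.Agent.J4H79.ZO

open Pool.Agent.J4H79.PT

/-- all the basis elements, with negative powers of `t` -/
noncomputable def valZ (comp : Pt wt3) (x : ℤ × List ℕ) : ℂ := comp.t ^ x.1 * comp.ph x.2

/-- the basis elements with letters in `Λ` -/
def SZ (Λ : Set ℕ) : Set (ℤ × List ℕ) := {x | ∀ k ∈ x.2, k ∈ Λ}

/-- the basis elements with letters in `Λ` -/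
def SN (Λ : Set ℕ) : Set Ix := {x | ∀ k ∈ x.2, k ∈ Λ}

lemma li_iff (comp : Pt wt3) (Λ : Set ℕ) :
    LinearIndepOn ℚ (valZ comp) (SZ Λ) ↔ LinearIndepOn ℚ (val comp) (SN Λ) := by
  rw [linearIndepOn_iff', linearIndepOn_iff']
  constructor
  · intro h s g hs hg
    have hinj : Set.InjOn (fun x : Ix => (((x.1 : ℤ), x.2) : ℤ × List ℕ)) s := by
      intro x _ y _ hxy
      simp only [Prod.mk.injEq, Nat.cast_inj] at hxy
      exact Prod.ext hxy.1 hxy.2
    have hex : ∀ y ∈ s.image (fun x : Ix => (((x.1 : ℤ), x.2) : ℤ × List ℕ)),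
        g (y.1.toNat, y.2) = 0 := by
      apply h _ (fun y => g (y.1.toNat, y.2))
      · intro y hy
        rw [Finset.coe_image] at hy
        obtain ⟨x, hx, rfl⟩ := hy
        exact hs hx
      · rw [Finset.sum_image hinj, ← hg]
        refine Finset.sum_congr rfl fun x _ => ?_
        simp [valZ, val]
    intro x hx
    have := hex _ (Finset.mem_image_of_mem _ hx)
    simpa using this
  · intro h s g hs hg
    set A : ℕ := ∑ x ∈ s, x.1.natAbs with hA
    have hAx : ∀ x ∈ s, 0 ≤ x.1 + A := by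
      intro x hx
      have h1 : x.1.natAbs ≤ A := Finset.single_le_sum (f := fun x : ℤ × List ℕ => x.1.natAbs)
        (fun _ _ => Nat.zero_le _) hx
      omega
    have hinj : Set.InjOn (fun x : ℤ × List ℕ => (((x.1 + A).toNat, x.2) : Ix)) s := by
      intro x hx y hy hxy
      simp only [Prod.mk.injEq] at hxy
      have h1 := hAx x hx
      have h2 := hAx y hy
      exact Prod.ext (by omega) hxy.2
    have hex : ∀ y ∈ s.image (fun x : ℤ × List ℕ => (((x.1 + A).toNat, x.2) : Ix)),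
        g (((y.1 : ℤ) - A, y.2)) = 0 := by
      apply h _ (fun y => g (((y.1 : ℤ) - A, y.2)))
      · intro y hy
        rw [Finset.coe_image] at hy
        obtain ⟨x, hx, rfl⟩ := hy
        exact hs hx
      rw [Finset.sum_image hinj]
      have h3 : ∑ x ∈ s, g x • valZ comp x * comp.t ^ (A : ℤ) = 0 := by
        rw [← Finset.sum_mul, hg, zero_mul]
      rw [← h3]
      refine Finset.sum_congr rfl fun x hx => ?_
      have h1 := hAx x hx
      have h4 : (((x.1 + A).toNat : ℕ) : ℤ) = x.1 + A := Int.toNat_of_nonneg h1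
      have h5 : ((((x.1 + A).toNat : ℕ) : ℤ) - A, x.2) = x := by
        rw [h4]
        exact Prod.ext (by simp) rfl
      simp only [h5]
      rw [val, valZ]
      simp only
      rw [← zpow_natCast, h4, zpow_add₀ comp.ht, Algebra.smul_def, Algebra.smul_def]
      ring
    intro x hx
    have h6 := hex _ (Finset.mem_image_of_mem _ hx)
    have h1 := hAx x hx
    have h4 : (((x.1 + A).toNat : ℕ) : ℤ) = x.1 + A := Int.toNat_of_nonneg h1
    simp only [h4] at h6
    have h5 : (x.1 + (A : ℤ) - A, x.2) = x := Prod.ext (by simp) rfl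
    rwa [h5] at h6

/-- a dependence gives a relation with integer coefficients -/
lemma exists_rel (comp : Pt wt3) (Λ : Set ℕ) (h : ¬ LinearIndepOn ℚ (val comp) (SN Λ)) :
    ∃ M H : ℕ, ∃ c ∈ Rel comp Λ M H, c ≠ 0 := by
  rw [linearIndepOn_iff] at h
  push Not at h
  obtain ⟨l, hlS, hl, hl0⟩ := h
  rw [Finsupp.mem_supported] at hlS
  set d : ℕ := ∏ x ∈ l.support, (l x).den with hd
  have hd0 : d ≠ 0 := Finset.prod_ne_zero_iff.2 fun x _ => (l x).den_nz
  have hint : ∀ x, ∃ z : ℤ, ((d : ℚ) • l) x = z := by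
    intro x
    rw [Finsupp.smul_apply, smul_eq_mul]
    by_cases hx : x ∈ l.support
    · obtain ⟨e, he⟩ := Finset.dvd_prod_of_mem (fun x => (l x).den) hx
      refine ⟨e * (l x).num, ?_⟩
      rw [← hd] at he
      rw [he]
      push_cast
      have h1 : ((l x).den : ℚ) * l x = (l x).num := Rat.den_mul_eq_num _
      calc ((l x).den : ℚ) * e * l x = e * (((l x).den : ℚ) * l x) := by ring
        _ = e * (l x).num := by rw [h1]
    · rw [Finsupp.notMem_support_iff] at hx
      exact ⟨0, by rw [hx]; simp⟩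
  choose f hf using hint
  refine ⟨l.support.sup W, ∑ x ∈ l.support, (f x).natAbs, (d : ℚ) • l, ⟨?_, ?_, ?_⟩, ?_⟩
  · intro x hx
    have hx2 := Finsupp.support_smul hx
    exact ⟨Finset.le_sup (f := W) hx2, hlS (Finset.mem_coe.2 hx2)⟩
  · intro x
    refine ⟨f x, hf x, ?_⟩
    by_cases hx : x ∈ l.support
    · have h1 : (f x).natAbs ≤ ∑ x ∈ l.support, (f x).natAbs :=
        Finset.single_le_sum (f := fun x => (f x).natAbs) (fun _ _ => Nat.zero_le _) hx
      rw [Int.abs_eq_natAbs]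
      exact_mod_cast h1
    · rw [Finsupp.notMem_support_iff] at hx
      have h2 := hf x
      rw [Finsupp.smul_apply, hx, smul_zero] at h2
      have h3 : f x = 0 := by exact_mod_cast h2.symm
      rw [h3, abs_zero]
      exact Int.natCast_nonneg _
  · rw [← ev_eq, map_smul]
    have : ev comp l = 0 := hl
    rw [this, smul_zero]
  · exact smul_ne_zero (by exact_mod_cast hd0) hl0

lemma ker_bot (comp : Pt wt3) (Λ : Set ℕ) (h : LinearIndepOn ℚ (val comp) (SN Λ)) (N : ℕ) :
    V Λ N ⊓ LinearMap.ker (ev comp) = ⊥ := by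
  rw [eq_bot_iff]
  rintro c ⟨hc1, hc2⟩
  rw [linearIndepOn_iff] at h
  refine h c ?_ hc2
  rw [Finsupp.mem_supported]
  intro x hx
  exact ((mem_V Λ N c).1 hc1 x hx).2

lemma D_eq (comp : Pt wt3) (Λ : Set ℕ) (h : LinearIndepOn ℚ (val comp) (SN Λ)) (N : ℕ) :
    D comp Λ N = E Λ N := by
  have h1 := D_add comp Λ N
  rw [ker_bot comp Λ h, finrank_bot] at h1
  simpa using h1

lemma R_eq (comp : Pt wt3) (Λ : Set ℕ) (h : LinearIndepOn ℚ (val comp) (SN Λ)) (N B : ℕ) :
    R comp Λ N B = 0 := by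
  have h1 := Rel_le comp Λ N B
  rw [ker_bot comp Λ h, le_bot_iff] at h1
  rw [R, h1, finrank_bot]

lemma pow_bound (Λ : Set ℕ) {M N : ℕ} (hMN : M ≤ N) :
    (1 / 3 : ℝ) ^ M * (E Λ N : ℝ) ≤ (E Λ (N - M) : ℝ) := by
  have h1 : (E Λ N : ℝ) ≤ 3 ^ M * (E Λ (N - M) : ℝ) := by exact_mod_cast E_le Λ M N hMN
  calc (1 / 3 : ℝ) ^ M * (E Λ N : ℝ) ≤ (1 / 3 : ℝ) ^ M * (3 ^ M * (E Λ (N - M) : ℝ)) := by
        apply mul_le_mul_of_nonneg_left h1 (by positivity)
    _ = (E Λ (N - M) : ℝ) := by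
      rw [← mul_assoc, ← mul_pow]
      norm_num

/-- the zero-one law -/
theorem zero_one (comp : Pt wt3) (Λ : Set ℕ) :
    List.TFAE [
      LinearIndepOn ℚ (valZ comp) (SZ Λ),
      ∀ ε : ℝ, 0 < ε → ∃ᶠ N : ℕ in atTop, (1 - ε) * (E Λ N : ℝ) ≤ (D comp Λ N : ℝ),
      ∀ ε : ℝ, 0 < ε → ∀ A : ℕ, ∃ᶠ N : ℕ in atTop,
        (R comp Λ N (N ^ A) : ℝ) ≤ ε * (E Λ N : ℝ)] := by
  rw [li_iff]
  tfae_have 1 → 2 := by
    intro h ε hε
    apply Eventually.frequently
    apply Eventually.of_forall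
    intro N
    rw [D_eq comp Λ h N]
    have : (0 : ℝ) ≤ E Λ N := Nat.cast_nonneg _
    nlinarith
  tfae_have 1 → 3 := by
    intro h ε hε A
    apply Eventually.frequently
    apply Eventually.of_forall
    intro N
    rw [R_eq comp Λ h]
    have : (0 : ℝ) ≤ E Λ N := Nat.cast_nonneg _
    simp only [Nat.cast_zero]
    positivity
  tfae_have 2 → 1 := by
    intro h
    by_contra hli
    obtain ⟨M, H, c, hc, hc0⟩ := exists_rel comp Λ hli
    have hε : (0 : ℝ) < (1 / 3 : ℝ) ^ M / 2 := by positivity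
    obtain ⟨N, hN1, hN2⟩ := ((h _ hε).and_eventually (eventually_ge_atTop M)).exists
    have h1 : (D comp Λ N : ℝ) + (E Λ (N - M) : ℝ) ≤ (E Λ N : ℝ) := by
      exact_mod_cast D_le comp hN2 hc hc0
    have h2 := pow_bound Λ hN2
    have h3 : (0 : ℝ) < E Λ N := by exact_mod_cast E_pos Λ N
    nlinarith
  tfae_have 3 → 1 := by
    intro h
    by_contra hli
    obtain ⟨M, H, c, hc, hc0⟩ := exists_rel comp Λ hli
    have hε : (0 : ℝ) < (1 / 3 : ℝ) ^ M / 2 := by positivity
    obtain ⟨N, hN1, hN2⟩ := ((h _ hε (M / 3 + 1)).and_eventually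
      (eventually_ge_atTop (M + H))).exists
    have hB : H * N ^ (M / 3) ≤ N ^ (M / 3 + 1) := by
      rw [pow_succ, mul_comm]
      exact Nat.mul_le_mul_left _ (by omega)
    have h1 : (E Λ (N - M) : ℝ) ≤ (R comp Λ N (N ^ (M / 3 + 1)) : ℝ) := by
      exact_mod_cast R_ge comp (show M ≤ N by omega) hB hc hc0
    have h2 := pow_bound Λ (show M ≤ N by omega)
    have h3 : (0 : ℝ) < E Λ N := by exact_mod_cast E_pos Λ N
    nlinarith
  tfae_finish

end Pool.Agent.J4H79.ZO
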